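import Pool.Agent.KS6_4.HR.Main

set_option autoImplicit false

open MeasureTheory

namespace Pool.Agent.Results.MP_2a8753_an.MedianLines

/-- The time-frequency shift of `g` by the point `p = (a, b)`: `x ↦ e^{2πi b x} g(x - a)`. -/
noncomputable def tfShift (p : ℝ × ℝ) (g : ℝ → ℂ) (x : ℝ) : ℂ :=
  Complex.exp (2 * (Real.pi : ℂ) * Complex.I * ((p.2 : ℂ) * (x : ℂ))) * g (x - p.1)

/-- The determinant of two vectors of the plane. -/
def det (v w : ℝ × ℝ) : ℝ := v.1 * w.2 - v.2 * w.1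

open Pool.Agent.Y306 Pool.Agent.KS6_4.HR in
lemma tfShift_eq (p : ℝ × ℝ) (g : ℝ → ℂ) (x : ℝ) :
    tfShift p g x = ee (p.2 * x) * g (x - p.1) := by
  unfold tfShift ee
  push_cast
  rfl

open Pool.Agent.Y306 Pool.Agent.KS6_4.HR in
lemma first (p : Fin 4 → ℝ × ℝ) (hp : p 0 ≠ p 1) (hmid : midpoint ℝ (p 2) (p 3) ∈ line[ℝ, p 0, p 1])
    (hdet : ∃ N : ℤ, N ≠ 0 ∧ det (p 2 - p 0) (p 3 - p 0) = N)
    (g : ℝ → ℂ) (hg : MemLp g 2 volume) (hne : ¬ (g =ᵐ[volume] 0)) (c : Fin 4 → ℂ)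
    (h : ∀ᵐ x ∂(volume : Measure ℝ), ∑ i, c i * tfShift (p i) g x = 0) : c = 0 := by
  by_contra hc
  apply hne
  obtain ⟨N, hN, hdet⟩ := hdet
  obtain ⟨r, hr⟩ := mem_affineSpan_pair_iff_exists_lineMap_eq.1 hmid
  rw [AffineMap.lineMap_apply, midpoint_eq_smul_add, vsub_eq_sub, vadd_eq_add] at hr
  have h1 := congrArg Prod.fst hr
  have h2 := congrArg Prod.snd hr
  simp only [Prod.fst_add, Prod.smul_fst, Prod.fst_sub, Prod.snd_add, Prod.smul_snd, Prod.snd_sub,
    smul_eq_mul, invOf_eq_inv] at h1 h2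
  have key : Ind p c := by
    refine general hp ?_ hN ?_ hc
    · linear_combination (-2 * ((p 1).1 - (p 0).1)) * h2 + (2 * ((p 1).2 - (p 0).2)) * h1
    · rw [← hdet]; rfl
  have h3 := key c (hg.toLp g) (fun i => rfl) (rel_of_ae4 hg (by
    filter_upwards [h] with x hx
    rw [← hx]
    exact Finset.sum_congr rfl fun i _ => by rw [tfShift_eq]))
  have h4 := hg.coeFn_toLp
  rw [h3] at h4
  exact h4.symm.trans (Lp.coeFn_zero _ _ _)

/-- **Linear independence of four time-frequency shifts** whenever the midpoint of two of the points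
lies on the line through the other two, `p 0` and `p 1`, and the triangle `p 0, p 2, p 3` has
twice its area a nonzero integer.  In particular this holds for `(0,0), (1,0), (0,1), (β,β)` with any
real `β ≠ 0`. -/
theorem result :
    (∀ p : Fin 4 → ℝ × ℝ, p 0 ≠ p 1 → midpoint ℝ (p 2) (p 3) ∈ line[ℝ, p 0, p 1] →
      (∃ N : ℤ, N ≠ 0 ∧ det (p 2 - p 0) (p 3 - p 0) = N) →
      ∀ g : ℝ → ℂ, MemLp g 2 volume → ¬ (g =ᵐ[volume] 0) → ∀ c : Fin 4 → ℂ,
        (∀ᵐ x ∂(volume : Measure ℝ), ∑ i, c i * tfShift (p i) g x = 0) → c = 0) ∧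
    (∀ β : ℝ, β ≠ 0 → ∀ g : ℝ → ℂ, MemLp g 2 volume → ¬ (g =ᵐ[volume] 0) → ∀ c : Fin 4 → ℂ,
        (∀ᵐ x ∂(volume : Measure ℝ),
          c 0 * g x + c 1 * g (x - 1)
            + c 2 * (Complex.exp (2 * (Real.pi : ℂ) * Complex.I * (x : ℂ)) * g x)
            + c 3 * (Complex.exp (2 * (Real.pi : ℂ) * Complex.I * ((β : ℂ) * (x : ℂ)))
                * g (x - β)) = 0) → c = 0) := by
  refine ⟨first, ?_⟩
  intro β hβ g hg hne c h
  have h1 := first ![((0 : ℝ), (0 : ℝ)), (β, β), (1, 0), (0, 1)] (by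
      intro h0
      apply hβ
      have := congrArg Prod.fst h0
      simpa using this.symm) (by
      rw [mem_affineSpan_pair_iff_exists_lineMap_eq]
      refine ⟨1 / (2 * β), ?_⟩
      rw [AffineMap.lineMap_apply, midpoint_eq_smul_add, vsub_eq_sub, vadd_eq_add]
      simp only [Fin.isValue, Matrix.cons_val_zero, Matrix.cons_val_one, Matrix.cons_val]
      ext
      · simp
        field_simp
      · simp
        field_simp) ⟨1, one_ne_zero, by
      simp [det]⟩ g hg hne ![c 0, c 3, c 1, c 2] (by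
      filter_upwards [h] with x hx
      rw [Fin.sum_univ_four]
      simp only [tfShift, Fin.isValue, Matrix.cons_val_zero, Matrix.cons_val_one, Matrix.cons_val,
        Complex.ofReal_zero, Complex.ofReal_one, zero_mul, mul_zero, Complex.exp_zero, one_mul,
        sub_zero]
      linear_combination hx)
  funext i
  fin_cases i
  · exact congrFun h1 0
  · exact congrFun h1 2
  · exact congrFun h1 3
  · exact congrFun h1 1

end Pool.Agent.Results.MP_2a8753_an.MedianLines
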